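import Pool.Agent.H540R3.DG10

set_option autoImplicit false

/-!
# Cohomological and algebraic dimension agree for all diagram groups

The proof: the diagram group acts on a tree obtained from the universal cover of the Squier
complex by cutting along the hyperplanes which touch the letter in front of the longest right
factor with trivial diagram group. The stabilizers are diagram groups over left factors, and
their algebraic dimension is strictly smaller, because the product of the diagram groups over the
two factors of a word embeds in the diagram group over the word, and diagram groups are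
torsion-free.
-/

namespace Pool.Agent.Results.MP_07d80f_al.CdEqAd

open H540DG

/-- A diagram group is a group isomorphic to the fundamental group `D(P, w)` of the Squier complex
of a semigroup presentation `P` at a nonempty word `w`. -/
def IsDiagramGroup (G : Type) [Group G] : Prop :=
  ∃ (A : Type) (P : Pres A) (w : List A), w ≠ [] ∧ Nonempty (G ≃* DiagramGroup P w)

theorem adLE_congr {G H : Type} [Group G] [Group H] (e : G ≃* H) {n : ℕ} (h : AdLE G n) :
    AdLE H n := by
  rintro m ⟨f, hf⟩
  exact h m ⟨e.symm.toMonoidHom.comp f, e.symm.injective.comp hf⟩

theorem cd_le_ad_of {G : Type} [Group G] (hG : ∀ n, AdLE G n → ∀ k, n ≤ k → Van G k) :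
    cd G ≤ ad G := by
  by_cases h : ad G = ⊤
  · rw [h]; exact le_top
  · obtain ⟨n, hn⟩ := ENat.ne_top_iff_exists.1 h
    rw [← hn]
    have hle : AdLE G n := by
      intro m hm
      have : (m : ℕ∞) ≤ ad G := le_iSup₂_of_le m hm le_rfl
      rw [← hn] at this
      exact_mod_cast this
    apply iSup₂_le
    rintro k ⟨M, hM⟩
    by_contra hcon
    have hcon : n < k := by
      by_contra h'
      push Not at h'
      apply hcon
      exact_mod_cast h'
    obtain ⟨k, rfl⟩ : ∃ k', k = k' + 1 := ⟨k - 1, by omega⟩
    have h1 := @van_isZero G _ k (hG n hle k (by omega)) M.V M.hV1 M.hV2 M.ρ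
    have h2 := ModuleCat.subsingleton_of_isZero h1
    exact not_nontrivial_iff_subsingleton.2 h2 hM

/-- **Main result.** For every diagram group the cohomological dimension equals the algebraic
dimension. -/
theorem result (G : Type) [Group G] (hG : IsDiagramGroup G) : cd G = ad G := by
  obtain ⟨A, P, w, -, ⟨e⟩⟩ := hG
  apply le_antisymm _ (ad_le_cd G)
  apply cd_le_ad_of
  intro n hn k hk
  have e' : G ≃* Dg P w := e.trans (dgEquiv P w)
  exact (van_of_adLE n w (adLE_congr e' hn) k hk).congr e'.symm

end Pool.Agent.Results.MP_07d80f_al.CdEqAd
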